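import Pool.Agent.Q240.CD.Stm2

set_option autoImplicit false

open Polynomial Filter Topology Finset MeasureTheory

namespace Pool.Agent.Q289.CD

open Pool.Agent.Q240.CD

theorem n_bounds {n : ℝ → ℕ} {κ : ℝ} (hκ : 0 < κ)
    (hn : Tendsto (fun a : ℝ => (n a : ℝ) / a ^ 2) atTop (𝓝 κ)) :
    ∀ᶠ a in atTop, 1 ≤ a ∧ κ / 2 * a ^ 2 ≤ n a ∧ (n a : ℝ) ≤ 2 * κ * a ^ 2 := by
  have h1 := hn.eventually (eventually_ge_nhds (show κ / 2 < κ by linarith))
  have h2 := hn.eventually (eventually_le_nhds (show κ < 2 * κ by linarith))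
  filter_upwards [h1, h2, eventually_ge_atTop (1 : ℝ)] with a ha1 ha2 ha3
  have ha : 0 < a ^ 2 := by positivity
  exact ⟨ha3, (le_div_iff₀ ha).1 ha1, (div_le_iff₀ ha).1 ha2⟩

theorem domK (hN : S_Near) (hF : S_Far) (hS : S_Sn) : S_DomK := by
  intro n κ hκ hn K
  set c : ℝ := 1 / (Real.pi ^ 2 * (2 * κ + 1)) with hc
  set C' : ℝ := 2 / (Real.pi ^ 2 * κ) with hC'
  set D : ℝ := 3 * (Real.pi * (2 * κ + 1)) with hD
  have hpi := Real.pi_pos
  have hc0 : 0 < c := by positivity
  have hC0 : 0 < C' := by positivity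
  have hD0 : 0 < D := by positivity
  have hfac : (1 : ℝ) ≤ (K.factorial : ℝ) := by exact_mod_cast Nat.succ_le_of_lt K.factorial_pos
  refine ⟨K.factorial * Real.exp (2 + 1 / (8 * c) + 10 * C') + 1, by positivity, ?_⟩
  filter_upwards [n_bounds hκ hn, eventually_ge_atTop (2 / κ * (1 + D + Real.log K.factorial)),
    eventually_ge_atTop (2 / κ), eventually_ge_atTop (K / κ)] with a ha hA1 hA2 hA3
  obtain ⟨ha1, hlow, hup⟩ := ha
  have ha0 : 0 < a := by linarith
  have hκa : 2 ≤ κ * a := by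
    rw [div_le_iff₀ hκ] at hA2
    linarith
  have hn1 : (1 : ℝ) ≤ n a := by nlinarith
  have hn1' : 1 ≤ n a := by exact_mod_cast hn1
  have hK4 : K ≤ 4 * n a := by
    have h1 : (K : ℝ) ≤ κ * a := by
      rw [div_le_iff₀ hκ] at hA3
      linarith
    have h2 : (K : ℝ) ≤ 4 * n a := by nlinarith
    exact_mod_cast h2
  obtain ⟨-, hs1, hs2⟩ := hS a (n a) ha0 hn1'
  set X : ℝ := xk a (n a + 1) with hX
  have hXeq : X = Real.pi * ((n a : ℝ) + 1) / a := by
    rw [hX]; unfold xk; push_cast; ring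
  have hX1 : 1 ≤ X := by
    rw [hXeq, le_div_iff₀ ha0]
    have : 3 < Real.pi := Real.pi_gt_three
    nlinarith
  have hX2 : 3 * X ≤ D * a := by
    have : X ≤ Real.pi * (2 * κ + 1) * a := by
      rw [hXeq, div_le_iff₀ ha0]
      have h3 : (n a : ℝ) + 1 ≤ (2 * κ + 1) * a * a := by nlinarith
      nlinarith
    rw [hD]; linarith
  have hsl : c ≤ sn a (n a) := by
    refine le_trans ?_ hs1
    rw [hc, div_le_div_iff₀ (by positivity) (by positivity)]
    have h3 : (n a : ℝ) + 1 ≤ (2 * κ + 1) * a ^ 2 := by nlinarith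
    nlinarith [mul_le_mul_of_nonneg_left h3 (sq_nonneg Real.pi)]
  have hsu : sn a (n a) ≤ C' := by
    refine hs2.trans ?_
    rw [hC', div_le_div_iff₀ (by positivity) (by positivity)]
    nlinarith [mul_le_mul_of_nonneg_left hlow (sq_nonneg Real.pi)]
  intro z hz
  have hnz : ‖z‖ ≤ |z.re| + 1 / 2 := by
    have := Complex.norm_le_abs_re_add_abs_im z
    linarith
  have h1z : 0 < 1 + ‖z‖ := by linarith [norm_nonneg z]
  have hzK : (1 + ‖z‖) ^ K ≤ (2 + |z.re|) ^ K :=
    pow_le_pow_left₀ h1z.le (by linarith) K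
  rw [le_div_iff₀ (by positivity)]
  have him : z.im ^ 2 ≤ 1 / 4 := by
    have := abs_nonneg z.im
    rw [← sq_abs]; nlinarith
  rcases le_or_gt |z.re| X with hle | hgt
  · -- near
    have h1 := hN a (n a) z ha0 hle (by linarith)
    have h2 : (-2 * z.re ^ 2 + 40 * z.im ^ 2) * sn a (n a) ≤ -2 * c * z.re ^ 2 + 10 * C' := by
      have q1 : z.re ^ 2 * c ≤ z.re ^ 2 * sn a (n a) := mul_le_mul_of_nonneg_left hsl (sq_nonneg _)
      have q2 : z.im ^ 2 * sn a (n a) ≤ 1 / 4 * C' :=
        mul_le_mul him hsu (hc0.le.trans hsl) (by norm_num)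
      nlinarith
    have h3 := Real.pow_div_factorial_le_exp (2 + |z.re|) (by positivity) K
    rw [div_le_iff₀ (by positivity)] at h3
    have h4 : |z.re| - 2 * c * z.re ^ 2 ≤ 1 / (8 * c) := by
      rw [le_div_iff₀ (by positivity), ← sq_abs z.re]
      nlinarith [sq_nonneg (4 * c * |z.re| - 1)]
    calc ‖Sp a (n a) z‖ ^ 2 * (1 + ‖z‖) ^ K
        ≤ Real.exp (-2 * c * z.re ^ 2 + 10 * C') * (Real.exp (2 + |z.re|) * K.factorial) := by
          refine mul_le_mul (h1.trans (Real.exp_le_exp.2 h2)) (hzK.trans h3) (by positivity)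
            (Real.exp_pos _).le
      _ = K.factorial * Real.exp ((-2 * c * z.re ^ 2 + 10 * C') + (2 + |z.re|)) := by
          rw [Real.exp_add (-2 * c * z.re ^ 2 + 10 * C') (2 + |z.re|)]; ring
      _ ≤ K.factorial * Real.exp (2 + 1 / (8 * c) + 10 * C') := by
          refine mul_le_mul_of_nonneg_left (Real.exp_le_exp.2 ?_) (by positivity)
          linarith
      _ ≤ _ := by linarith
  · -- far
    have h1 := hF a (n a) z ha0 hgt.le
    have hre : 1 ≤ |z.re| := hX1.trans hgt.le
    have hX0 : 0 < X := by linarith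
    have hθ : 1 ≤ |z.re| / X := by rw [le_div_iff₀ hX0]; linarith
    have hden : (|z.re| / X) ^ K * 4 ^ n a ≤
        (a * z.re) ^ 2 * (|z.re| / X) ^ (4 * n a) * 4 ^ n a := by
      refine mul_le_mul_of_nonneg_right ?_ (by positivity)
      have q1 : (|z.re| / X) ^ K ≤ (|z.re| / X) ^ (4 * n a) := pow_le_pow_right₀ hθ hK4
      have q2 : 1 ≤ (a * z.re) ^ 2 := by
        rw [← sq_abs, abs_mul, abs_of_pos ha0]
        have : 1 ≤ a * |z.re| := by nlinarith
        nlinarith
      calc _ ≤ (|z.re| / X) ^ (4 * n a) := q1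
        _ = 1 * (|z.re| / X) ^ (4 * n a) := (one_mul _).symm
        _ ≤ _ := mul_le_mul_of_nonneg_right q2 (by positivity)
    have hnum : Real.exp (2 * a * |z.im|) ≤ Real.exp a := by
      apply Real.exp_le_exp.2
      nlinarith [abs_nonneg z.im]
    have h2 : ‖Sp a (n a) z‖ ^ 2 ≤ Real.exp a / ((|z.re| / X) ^ K * 4 ^ n a) :=
      h1.trans (div_le_div₀ (Real.exp_pos _).le hnum (by positivity) hden)
    have h3 : (1 + ‖z‖) ^ K ≤ (3 * |z.re|) ^ K :=
      hzK.trans (pow_le_pow_left₀ (by positivity) (by linarith) K)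
    have h4 : Real.exp a * (3 * X) ^ K ≤ 4 ^ n a := by
      have q1 : (3 * X) ^ K ≤ Real.exp (D * a) * K.factorial := by
        have := Real.pow_div_factorial_le_exp (D * a) (by positivity) K
        rw [div_le_iff₀ (by positivity)] at this
        exact (pow_le_pow_left₀ (by positivity) hX2 K).trans this
      have q2 : (K.factorial : ℝ) = Real.exp (Real.log K.factorial) :=
        (Real.exp_log (by positivity)).symm
      have q3 : a + (D * a + Real.log K.factorial) ≤ n a := by
        have r1 : 1 + D + Real.log K.factorial ≤ κ / 2 * a := by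
          have := hA1
          rw [div_mul_eq_mul_div, div_le_iff₀ hκ] at this
          linarith
        have r2 : 0 ≤ Real.log K.factorial := Real.log_nonneg hfac
        nlinarith
      have q4 : Real.exp (n a : ℝ) ≤ 4 ^ n a := by
        rw [← Real.exp_one_pow]
        refine pow_le_pow_left₀ (Real.exp_pos _).le ?_ _
        have := Real.exp_one_lt_d9
        linarith
      calc Real.exp a * (3 * X) ^ K ≤ Real.exp a * (Real.exp (D * a) * K.factorial) :=
            mul_le_mul_of_nonneg_left q1 (Real.exp_pos _).le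
        _ = Real.exp (a + (D * a + Real.log K.factorial)) := by
            rw [Real.exp_add, Real.exp_add, ← q2]
        _ ≤ Real.exp (n a : ℝ) := Real.exp_le_exp.2 q3
        _ ≤ _ := q4
    have hre0 : 0 < |z.re| := by linarith
    calc ‖Sp a (n a) z‖ ^ 2 * (1 + ‖z‖) ^ K
        ≤ Real.exp a / ((|z.re| / X) ^ K * 4 ^ n a) * (3 * |z.re|) ^ K :=
          mul_le_mul h2 h3 (by positivity) (by positivity)
      _ = Real.exp a * (3 * X) ^ K / 4 ^ n a := by
          rw [div_pow, mul_pow, mul_pow]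
          field_simp
      _ ≤ 1 := by
          rw [div_le_one (by positivity)]
          exact h4
      _ ≤ _ := by
          have : 0 < K.factorial * Real.exp (2 + 1 / (8 * c) + 10 * C') := by positivity
          linarith

end Pool.Agent.Q289.CD
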