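import Pool.Agent.Q240.CD.Stm2

set_option autoImplicit false

open Polynomial Filter Topology Finset MeasureTheory

namespace Pool.Agent.Q289.CD

open Pool.Agent.Q240.CD

/-- polynomials have polynomial growth -/
theorem poly_bound (p : ℂ[X]) : ∃ C : ℝ, 0 < C ∧ ∀ z : ℂ, ‖p.eval z‖ ≤ C * (1 + ‖z‖) ^ p.natDegree := by
  refine ⟨1 + ∑ i ∈ range (p.natDegree + 1), ‖p.coeff i‖, by positivity, fun z => ?_⟩
  rw [Polynomial.eval_eq_sum_range]
  refine (norm_sum_le _ _).trans ?_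
  have h1 : ∀ i ∈ range (p.natDegree + 1), ‖p.coeff i * z ^ i‖ ≤
      ‖p.coeff i‖ * (1 + ‖z‖) ^ p.natDegree := by
    intro i hi
    rw [norm_mul, norm_pow]
    refine mul_le_mul_of_nonneg_left ?_ (norm_nonneg _)
    have h2 : ‖z‖ ^ i ≤ (1 + ‖z‖) ^ i := pow_le_pow_left₀ (norm_nonneg _) (by linarith) i
    refine h2.trans (pow_le_pow_right₀ (by linarith [norm_nonneg z]) ?_)
    exact Nat.lt_succ_iff.1 (mem_range.1 hi)
  refine (sum_le_sum h1).trans ?_
  rw [← sum_mul]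
  refine mul_le_mul_of_nonneg_right ?_ (by positivity)
  linarith

theorem lul_at {F : ℝ → ℂ → ℂ} {f : ℂ → ℂ} (h : TendstoLocallyUniformly F f atTop) (w : ℂ) :
    Tendsto (fun a => F a w) atTop (𝓝 (f w)) :=
  (tendstoLocallyUniformlyOn_univ.2 h).tendsto_at (Set.mem_univ w)

theorem limSum (hL : S_LimS) (hD : S_DomK) : S_LimSum := by
  intro n κ hκ hn β m z hm hz hs p
  obtain ⟨Cp, hCp, hp⟩ := poly_bound p
  obtain ⟨C, hC, hdom⟩ := hD n κ hκ hn (p.natDegree + 2)
  -- pointwise limit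
  have hpt : ∀ w : ℂ, Tendsto (fun a => Sp a (n a) w) atTop (𝓝 (Complex.exp (-(ck κ * w ^ 2)))) :=
    fun w => lul_at (hL n κ hκ hn) w
  have hsq : ∀ w : ℂ, Complex.exp (-(2 * ck κ * w ^ 2)) = Complex.exp (-(ck κ * w ^ 2)) ^ 2 := by
    intro w
    rw [← Complex.exp_nat_mul]
    congr 1
    push_cast
    ring
  have hterm : ∀ (b : β) (s : ℂ), ‖s‖ ^ 2 ≤ C / (1 + ‖z b‖) ^ (p.natDegree + 2) →
      ‖(m b : ℂ) * (p.eval (z b) * s ^ 2)‖ ≤ Cp * C * (m b / (1 + ‖z b‖) ^ 2) := by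
    intro b s hsb
    have h0 : 0 < 1 + ‖z b‖ := by linarith [norm_nonneg (z b)]
    rw [norm_mul, norm_mul, norm_pow, Complex.norm_real, Real.norm_eq_abs, abs_of_nonneg (hm b)]
    calc m b * (‖p.eval (z b)‖ * ‖s‖ ^ 2) ≤
        m b * ((Cp * (1 + ‖z b‖) ^ p.natDegree) * (C / (1 + ‖z b‖) ^ (p.natDegree + 2))) := by
          refine mul_le_mul_of_nonneg_left ?_ (hm b)
          exact mul_le_mul (hp _) hsb (by positivity) (by positivity)
      _ = Cp * C * (m b / (1 + ‖z b‖) ^ 2) := by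
          rw [pow_add]
          field_simp
  have hbd : ∀ᶠ a in atTop, ∀ b, ‖(m b : ℂ) * (p.eval (z b) * Sp a (n a) (z b) ^ 2)‖ ≤
      Cp * C * (m b / (1 + ‖z b‖) ^ 2) := by
    filter_upwards [hdom] with a ha b
    exact hterm b _ (ha _ (hz b))
  have hlimb : ∀ b, ‖Complex.exp (-(ck κ * z b ^ 2))‖ ^ 2 ≤
      C / (1 + ‖z b‖) ^ (p.natDegree + 2) := by
    intro b
    refine le_of_tendsto (((hpt (z b)).norm).pow 2) ?_
    filter_upwards [hdom] with a ha
    exact ha _ (hz b)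
  refine ⟨?_, ?_, ?_⟩
  · filter_upwards [hbd] with a ha
    exact Summable.of_norm_bounded (hs.mul_left (Cp * C)) ha
  · refine Summable.of_norm_bounded (hs.mul_left (Cp * C)) fun b => ?_
    rw [hsq]
    exact hterm b _ (hlimb b)
  · simp_rw [hsq]
    refine tendsto_tsum_of_dominated_convergence (hs.mul_left (Cp * C)) (fun b => ?_) hbd
    exact (((hpt (z b)).pow 2).const_mul _).const_mul _

theorem poly_bound_real (p : ℝ[X]) :
    ∃ C : ℝ, 0 < C ∧ ∀ x : ℝ, |p.eval x| ≤ C * (1 + |x|) ^ p.natDegree := by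
  obtain ⟨C, hC, h⟩ := poly_bound (p.map (algebraMap ℝ ℂ))
  refine ⟨C, hC, fun x => ?_⟩
  have h1 := h (x : ℂ)
  have h2 : (p.map (algebraMap ℝ ℂ)).eval (x : ℂ) = ((p.eval x : ℝ) : ℂ) := by
    rw [Polynomial.eval_map_algebraMap]
    exact (Polynomial.aeval_algebraMap_apply_eq_algebraMap_eval x p)
  rw [h2, Complex.norm_real, Complex.norm_real, Real.norm_eq_abs, Real.norm_eq_abs] at h1
  refine h1.trans ?_
  refine mul_le_mul_of_nonneg_left ?_ hC.le
  exact pow_le_pow_right₀ (by linarith [abs_nonneg x]) (Polynomial.natDegree_map_le)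

theorem limInt (hB : S_SpB) (hL : S_LimS) (hD : S_DomK) : S_LimInt := by
  intro n κ hκ hn p
  obtain ⟨Cp, hCp, hp⟩ := poly_bound_real p
  obtain ⟨C, hC, hdom⟩ := hD n κ hκ hn (p.natDegree + 2)
  have hSr : ∀ (a : ℝ) (x : ℝ), ‖Sp a (n a) (x : ℂ)‖ = |Sr a (n a) x| := by
    intro a x
    rw [(hB a (n a)).2.2.2.1 x, Complex.norm_real, Real.norm_eq_abs]
  have hexp : ∀ x : ℝ, Complex.exp (-(ck κ * (x : ℂ) ^ 2)) = ((Real.exp (-(ck κ * x ^ 2)) : ℝ) : ℂ) := by
    intro x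
    push_cast
    rfl
  have hpt : ∀ x : ℝ, Tendsto (fun a => Sr a (n a) x) atTop (𝓝 (Real.exp (-(ck κ * x ^ 2)))) := by
    intro x
    have h1 := lul_at (hL n κ hκ hn) (x : ℂ)
    rw [hexp] at h1
    have h2 := (Complex.continuous_re.tendsto _).comp h1
    refine h2.congr fun a => ?_
    simp only [Function.comp_apply]
    rw [(hB a (n a)).2.2.2.1 x, Complex.ofReal_re]
  have hsq : ∀ x : ℝ, Real.exp (-(2 * ck κ * x ^ 2)) = Real.exp (-(ck κ * x ^ 2)) ^ 2 := by
    intro x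
    rw [← Real.exp_nat_mul]
    congr 1
    push_cast
    ring
  unfold OZ
  refine Tendsto.const_mul _ ?_
  refine tendsto_integral_filter_of_dominated_convergence
    (bound := fun x : ℝ => Cp * C * (1 + x ^ 2)⁻¹) ?_ ?_ ?_ ?_
  · refine Eventually.of_forall fun a => ?_
    exact (p.continuous.mul ((hB a (n a)).2.1.pow 2)).aestronglyMeasurable
  · filter_upwards [hdom] with a ha
    refine Eventually.of_forall fun x => ?_
    have h1 := ha (x : ℂ) (by simp)
    rw [hSr, Complex.norm_real, Real.norm_eq_abs] at h1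
    have h0 : 0 < 1 + |x| := by linarith [abs_nonneg x]
    rw [norm_mul, norm_pow, Real.norm_eq_abs, Real.norm_eq_abs]
    calc |p.eval x| * |Sr a (n a) x| ^ 2 ≤
        (Cp * (1 + |x|) ^ p.natDegree) * (C / (1 + |x|) ^ (p.natDegree + 2)) :=
          mul_le_mul (hp x) h1 (by positivity) (by positivity)
      _ = Cp * C * ((1 + |x|) ^ 2)⁻¹ := by
          rw [pow_add]
          field_simp
      _ ≤ Cp * C * (1 + x ^ 2)⁻¹ := by
          refine mul_le_mul_of_nonneg_left ?_ (by positivity)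
          refine inv_anti₀ (by positivity) ?_
          have := abs_nonneg x
          have h5 := sq_abs x
          nlinarith
  · exact integrable_inv_one_add_sq.const_mul _
  · refine Eventually.of_forall fun x => ?_
    rw [hsq]
    exact ((hpt x).pow 2).const_mul _

end Pool.Agent.Q289.CD
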