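import Pool.Agent.Q240.CD.Stm2

set_option autoImplicit false

open Polynomial Filter Topology Finset MeasureTheory

namespace Pool.Agent.Q289.CD

open Pool.Agent.Q240.CD

/-- a product of factors close to one as an exponential -/
theorem prod_exp {u : ℕ → ℂ} (hu : Summable fun k => ‖u k‖) (h2 : ∀ k, ‖u k‖ ≤ 1 / 2) :
    ∃ w : ℂ, ∏' k, (1 - u k) = Complex.exp w ∧ ‖w + ∑' k, u k‖ ≤ ∑' k, ‖u k‖ ^ 2 := by
  have hus : Summable u := hu.of_norm
  have hun : Summable fun k => -u k := hus.neg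
  have hlog : Summable fun k => Complex.log (1 + -u k) :=
    Complex.summable_log_one_add_of_summable hun
  have hne : ∀ k, 1 + -u k ≠ 0 := by
    intro k h
    have h3 : u k = 1 := by linear_combination -h
    have := h2 k
    rw [h3] at this
    norm_num at this
  refine ⟨∑' k, Complex.log (1 + -u k), ?_, ?_⟩
  · rw [Complex.cexp_tsum_eq_tprod hne hlog]
    simp only [sub_eq_add_neg]
  · rw [← hlog.tsum_add hus]
    have hsq : Summable fun k => ‖u k‖ ^ 2 := by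
      refine Summable.of_nonneg_of_le (fun k => by positivity) (fun k => ?_) hu
      have := h2 k
      have := norm_nonneg (u k)
      nlinarith
    refine tsum_of_norm_bounded hsq.hasSum fun k => ?_
    have h4 : ‖-u k‖ < 1 := by rw [norm_neg]; linarith [h2 k]
    have h5 := Complex.norm_log_one_add_sub_self_le h4
    rw [sub_neg_eq_add, norm_neg] at h5
    refine h5.trans ?_
    have h6 : (1 - ‖u k‖)⁻¹ ≤ 2 := by
      rw [inv_le_comm₀ (by linarith [h2 k]) (by norm_num)]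
      linarith [h2 k]
    have h7 := sq_nonneg ‖u k‖
    nlinarith

theorem n_bounds' {n : ℝ → ℕ} {κ : ℝ} (hκ : 0 < κ)
    (hn : Tendsto (fun a : ℝ => (n a : ℝ) / a ^ 2) atTop (𝓝 κ)) :
    ∀ᶠ a in atTop, 1 ≤ a ∧ κ / 2 * a ^ 2 ≤ n a := by
  have h1 := hn.eventually (eventually_ge_nhds (show κ / 2 < κ by linarith))
  filter_upwards [h1, eventually_ge_atTop (1 : ℝ)] with a ha1 ha3
  have ha : 0 < a ^ 2 := by positivity
  exact ⟨ha3, (le_div_iff₀ ha).1 ha1⟩

/-- the limit of `s` -/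
theorem sn_lim (hS : S_Sn) {n : ℝ → ℕ} {κ : ℝ} (hκ : 0 < κ)
    (hn : Tendsto (fun a : ℝ => (n a : ℝ) / a ^ 2) atTop (𝓝 κ)) :
    Tendsto (fun a : ℝ => sn a (n a)) atTop (𝓝 (ck κ)) := by
  have hpi := Real.pi_pos
  have hinv : Tendsto (fun a : ℝ => 1 / a ^ 2) atTop (𝓝 0) := by
    have := (tendsto_pow_atTop (α := ℝ) two_ne_zero).inv_tendsto_atTop
    refine this.congr fun a => ?_
    rw [Pi.inv_apply, one_div]
  have l1 : Tendsto (fun a : ℝ => 1 / (Real.pi ^ 2 * ((n a : ℝ) / a ^ 2 + 1 / a ^ 2))) atTop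
      (𝓝 (1 / (Real.pi ^ 2 * (κ + 0)))) := by
    refine Tendsto.div tendsto_const_nhds ((hn.add hinv).const_mul _) ?_
    positivity
  have l2 : Tendsto (fun a : ℝ => 1 / (Real.pi ^ 2 * ((n a : ℝ) / a ^ 2))) atTop
      (𝓝 (1 / (Real.pi ^ 2 * κ))) := by
    refine Tendsto.div tendsto_const_nhds (hn.const_mul _) ?_
    positivity
  rw [add_zero] at l1
  unfold ck
  refine tendsto_of_tendsto_of_tendsto_of_le_of_le' l1 l2 ?_ ?_
  · filter_upwards [n_bounds' hκ hn, eventually_ge_atTop (2 / κ)] with a ha hA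
    have ha0 : 0 < a := by linarith [ha.1]
    rw [div_le_iff₀ hκ] at hA
    have hn1 : (1 : ℝ) ≤ n a := by nlinarith [ha.1, ha.2]
    have hn1' : 1 ≤ n a := by exact_mod_cast hn1
    refine le_trans (le_of_eq ?_) (hS a (n a) ha0 hn1').2.1
    field_simp
  · filter_upwards [n_bounds' hκ hn, eventually_ge_atTop (2 / κ)] with a ha hA
    have ha0 : 0 < a := by linarith [ha.1]
    rw [div_le_iff₀ hκ] at hA
    have hn1 : (1 : ℝ) ≤ n a := by nlinarith [ha.1, ha.2]
    have hn1' : 1 ≤ n a := by exact_mod_cast hn1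
    refine le_trans (hS a (n a) ha0 hn1').2.2 (le_of_eq ?_)
    field_simp

theorem limS (hS : S_Sn) : S_LimS := by
  intro n κ hκ hn
  have hpi := Real.pi_pos
  have hpi3 := Real.pi_gt_three
  rw [tendstoLocallyUniformly_iff_forall_isCompact]
  intro Kc hKc
  rw [Metric.tendstoUniformlyOn_iff]
  intro ε hε
  obtain ⟨R, hR⟩ := hKc.isBounded.subset_closedBall (0 : ℂ)
  set R' : ℝ := max R 1 with hR'
  have hR1 : 1 ≤ R' := le_max_right _ _
  have hRz : ∀ z ∈ Kc, ‖z‖ ≤ R' := by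
    intro z hz
    have := hR hz
    rw [mem_closedBall_zero_iff] at this
    exact this.trans (le_max_left _ _)
  have hck : 0 < ck κ := by unfold ck; positivity
  -- the tolerance
  set E : ℝ := Real.exp (ck κ * R' ^ 2) with hE
  have hE0 : 0 < E := Real.exp_pos _
  set δ : ℝ := min 1 (ε / (4 * E)) with hδ
  have hδ0 : 0 < δ := lt_min one_pos (by positivity)
  have hδ1 : δ ≤ 1 := min_le_left _ _
  have hδE : E * (2 * δ) < ε := by
    have : δ ≤ ε / (4 * E) := min_le_right _ _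
    rw [le_div_iff₀ (by positivity)] at this
    nlinarith
  have hsl := sn_lim hS hκ hn
  have hs1 : ∀ᶠ a in atTop, |sn a (n a) - ck κ| ≤ δ / (2 * R' ^ 2) := by
    have := (tendsto_order.1 ((hsl.sub_const (ck κ)).abs)).2 (δ / (2 * R' ^ 2)) (by
      rw [sub_self, abs_zero]; positivity)
    filter_upwards [this] with a ha using ha.le
  have hs2 : ∀ᶠ a in atTop, sn a (n a) ≤ ck κ + 1 :=
    (hsl.eventually (eventually_le_nhds (show ck κ < ck κ + 1 by linarith)))
  filter_upwards [n_bounds' hκ hn, eventually_ge_atTop (2 / κ), hs1, hs2,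
    eventually_ge_atTop (2 * R' / κ),
    eventually_ge_atTop ((R' ^ 4 * (ck κ + 1)) * 2 / (κ * δ))] with a ha hA ha2 ha3 hA4 hA5
  have ha0 : 0 < a := by linarith [ha.1]
  rw [div_le_iff₀ hκ] at hA hA4
  rw [div_le_iff₀ (by positivity)] at hA5
  have hn1 : (1 : ℝ) ≤ n a := by nlinarith [ha.1, ha.2]
  have hn1' : 1 ≤ n a := by exact_mod_cast hn1
  obtain ⟨hsum, -, -⟩ := hS a (n a) ha0 hn1'
  -- the nodes are large
  have hx : ∀ k : ℕ, κ * a ≤ xk a (n a + 1 + k) := by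
    intro k
    unfold xk
    rw [le_div_iff₀ ha0]
    have h1 : (n a : ℝ) ≤ ((n a + 1 + k : ℕ) : ℝ) := by push_cast; linarith [k.cast_nonneg (α := ℝ)]
    have h2 : 3 * (κ / 2 * a ^ 2) ≤ Real.pi * ((n a + 1 + k : ℕ) : ℝ) :=
      mul_le_mul hpi3.le (ha.2.trans h1) (by positivity) hpi.le
    nlinarith [mul_pos hκ (sq_pos_of_pos ha0)]
  have hκa : 0 < κ * a := by positivity
  have hx0 : ∀ k : ℕ, 0 < xk a (n a + 1 + k) := fun k => hκa.trans_le (hx k)
  intro z hz
  have hzR := hRz z hz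
  have hz0 := norm_nonneg z
  -- the terms
  set u : ℕ → ℂ := fun k => z ^ 2 / ((xk a (n a + 1 + k) : ℝ) : ℂ) ^ 2 with hu
  have hun : ∀ k, ‖u k‖ = ‖z‖ ^ 2 * (1 / xk a (n a + 1 + k) ^ 2) := by
    intro k
    rw [hu]
    simp only
    rw [norm_div, norm_pow, norm_pow, Complex.norm_real, Real.norm_eq_abs, abs_of_pos (hx0 k)]
    ring
  have husum : Summable fun k => ‖u k‖ := by
    simp_rw [hun]
    exact hsum.mul_left _
  have hxinv : ∀ k, 1 / xk a (n a + 1 + k) ^ 2 ≤ 1 / (κ * a) ^ 2 := fun k =>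
    one_div_le_one_div_of_le (by positivity) (pow_le_pow_left₀ hκa.le (hx k) 2)
  have hu2 : ∀ k, ‖u k‖ ≤ 1 / 2 := by
    intro k
    rw [hun]
    calc ‖z‖ ^ 2 * (1 / xk a (n a + 1 + k) ^ 2) ≤ R' ^ 2 * (1 / (κ * a) ^ 2) :=
          mul_le_mul (pow_le_pow_left₀ hz0 hzR 2) (hxinv k) (by positivity) (by positivity)
      _ ≤ 1 / 2 := by
          rw [mul_one_div, div_le_iff₀ (by positivity)]
          nlinarith
  obtain ⟨w, hw1, hw2⟩ := prod_exp husum hu2
  have hts : ∑' k, u k = z ^ 2 * (sn a (n a) : ℂ) := by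
    unfold sn
    rw [Complex.ofReal_tsum, ← tsum_mul_left]
    refine tsum_congr fun k => ?_
    rw [hu]
    push_cast
    ring
  have hsq : ∑' k, ‖u k‖ ^ 2 ≤ δ / 2 := by
    have q1 : ∀ k, ‖u k‖ ^ 2 ≤ (R' ^ 4 / (κ * a) ^ 2) * (1 / xk a (n a + 1 + k) ^ 2) := by
      intro k
      rw [hun, mul_pow]
      calc (‖z‖ ^ 2) ^ 2 * (1 / xk a (n a + 1 + k) ^ 2) ^ 2 =
          ‖z‖ ^ 4 * ((1 / xk a (n a + 1 + k) ^ 2) * (1 / xk a (n a + 1 + k) ^ 2)) := by ring
        _ ≤ R' ^ 4 * ((1 / (κ * a) ^ 2) * (1 / xk a (n a + 1 + k) ^ 2)) := by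
            refine mul_le_mul (pow_le_pow_left₀ hz0 hzR 4) ?_ (by positivity) (by positivity)
            exact mul_le_mul_of_nonneg_right (hxinv k) (by positivity)
        _ = _ := by ring
    have q2 : Summable fun k => ‖u k‖ ^ 2 :=
      Summable.of_nonneg_of_le (fun k => by positivity) q1 (hsum.mul_left _)
    calc ∑' k, ‖u k‖ ^ 2 ≤ ∑' k, (R' ^ 4 / (κ * a) ^ 2) * (1 / xk a (n a + 1 + k) ^ 2) :=
          q2.tsum_le_tsum q1 (hsum.mul_left _)
      _ = (R' ^ 4 / (κ * a) ^ 2) * sn a (n a) := by rw [tsum_mul_left]; rfl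
      _ ≤ (R' ^ 4 / (κ * a) ^ 2) * (ck κ + 1) := by gcongr
      _ ≤ δ / 2 := by
          rw [div_mul_eq_mul_div, div_le_iff₀ (by positivity)]
          have r1 : κ * δ * a ≤ δ / 2 * (κ * a) ^ 2 * 2 / 2 := by
            have : 2 ≤ κ * a := by linarith
            nlinarith [mul_pos hδ0 hκa]
          nlinarith
  -- comparison of the exponents
  set w0 : ℂ := -(ck κ * z ^ 2) with hw0
  have hdiff : ‖w - w0‖ ≤ δ := by
    have e : w - w0 = (w + ∑' k, u k) + (-(z ^ 2 * ((sn a (n a) - ck κ : ℝ) : ℂ))) := by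
      rw [hts, hw0]; push_cast; ring
    rw [e]
    refine (norm_add_le _ _).trans ?_
    have h1 : ‖-(z ^ 2 * ((sn a (n a) - ck κ : ℝ) : ℂ))‖ ≤ δ / 2 := by
      rw [norm_neg, norm_mul, norm_pow, Complex.norm_real, Real.norm_eq_abs]
      calc ‖z‖ ^ 2 * |sn a (n a) - ck κ| ≤ R' ^ 2 * (δ / (2 * R' ^ 2)) :=
            mul_le_mul (pow_le_pow_left₀ hz0 hzR 2) ha2 (abs_nonneg _) (by positivity)
        _ = δ / 2 := by field_simp
    linarith [hw2.trans hsq]
  have hSp : Sp a (n a) z = Complex.exp w := hw1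
  rw [hSp, dist_eq_norm]
  have e1 : Complex.exp w0 - Complex.exp w = -(Complex.exp w0 * (Complex.exp (w - w0) - 1)) := by
    rw [Complex.exp_sub]
    have := Complex.exp_ne_zero w0
    field_simp
    ring
  rw [e1, norm_neg, norm_mul]
  have h3 : ‖Complex.exp w0‖ ≤ E := by
    rw [Complex.norm_exp, hE]
    apply Real.exp_le_exp.2
    have : w0.re ≤ ‖w0‖ := Complex.re_le_norm _
    refine this.trans ?_
    rw [hw0, norm_neg, norm_mul, norm_pow, Complex.norm_real, Real.norm_eq_abs, abs_of_pos hck]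
    gcongr
  have h4 : ‖Complex.exp (w - w0) - 1‖ ≤ 2 * δ := by
    have := Complex.norm_exp_sub_one_le (x := w - w0) (hdiff.trans hδ1)
    linarith
  calc ‖Complex.exp w0‖ * ‖Complex.exp (w - w0) - 1‖ ≤ E * (2 * δ) :=
        mul_le_mul h3 h4 (norm_nonneg _) hE0.le
    _ < ε := hδE

end Pool.Agent.Q289.CD
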